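import Pool.Agent.Helper89.OC.St1

/-!
# Project OC (MP_2b6189_al), module LKN: consequences of the link
-/

set_option autoImplicit false

namespace Pool.Agent.Helper32.OC

open Matrix ComplexConjugate Pool.Agent.Helper94.YF Pool.Agent.Helper94.YG Pool.Agent.Helper89.OS
  Pool.Agent.Helper89.OC

theorem hLKN : StLKN := by
  intro I _ _ Z p b X hL
  obtain ⟨hU, hthL, htadd, ht0, -, hto, -, hLoN, hLosym, -, -⟩ :=
    Pool.Agent.Helper36.YF.hFUS Pool.Agent.Helper88.YF.hDUA I Z.toCentreRep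
  obtain ⟨-, -, -, -, -, hrst⟩ := Pool.Agent.Helper88.YF.hDUA I Z.toCentreRep
  obtain ⟨j, tu, hj, htu, htum⟩ := Pool.Agent.Helper24.OS.hJTU Z.L p 1 b X.prime hL.idp
  have hSm := (Pool.Agent.Helper19.OS.hGRP Z.L (p ^ 1) b j tu hL.idp.idem hj htu htum).2.1
  obtain ⟨hsym, hint⟩ := Pool.Agent.Helper33.OS.hENT Pool.Agent.Helper36.YF.hFUS
    Pool.Agent.Helper88.YF.hDUA I Z.toCentreRep (1 - b)
  have hs : ∀ i k, X.s i k = (p : ℂ) * Z.rho (s2 b) i k := fun i k => by rw [hL.s]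
  have hent : ∀ i k, Z.rho (s2 b) i k = Z.tw (-b) i * Z.rho (Lo b) i k * Z.tw (-b) k := by
    intro i k
    unfold s2
    rw [map_mul, map_mul, hU, Matrix.mul_diagonal, Matrix.diagonal_mul]
  have hinv : ∀ l, Z.tw b l * Z.tw (-b) l = 1 := by
    intro l
    rw [← htadd, add_neg_cancel, ht0]
  have hty : ∀ l, X.t l * (X.y l : ℂ) = (p : ℂ) * Z.rho (Lo b) l Z.o := by
    intro l
    rw [← X.s_o, hs, hL.t, hL.o, hent, hto (-b)]
    linear_combination ((p : ℂ) * Z.rho (Lo b) l Z.o) * hinv l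
  refine ⟨fun i k => ?_, fun i k => ?_, ?_⟩
  · have h1 : X.s i k * (X.t i * X.t k) = (p : ℂ) * Z.rho (Lo b) i k := by
      rw [hs, hL.t, hent]
      linear_combination ((p : ℂ) * Z.rho (Lo b) i k * (Z.tw b k * Z.tw (-b) k)) * hinv i +
        ((p : ℂ) * Z.rho (Lo b) i k) * hinv k
    rw [h1, hLoN b i k, Finset.mul_sum]
    refine Finset.sum_congr rfl fun l _ => ?_
    rw [hty l, hL.N, hL.st]
    ring
  · rw [hs, hs, hL.st, hrst]
  · refine ⟨fun i k => (X.m : ℂ) * Z.rho (s2 (1 - b)) i k, fun i k => ?_, fun i => ?_, fun k => ?_,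
      fun i k => ?_⟩
    · exact (hint X.m X.z hL.z i k).1
    · show (X.m : ℂ) * Z.rho (s2 (1 - b)) i X.o = X.z i
      rw [hL.o]
      exact (hL.z i).symm
    · show (X.m : ℂ) * Z.rho (s2 (1 - b)) X.o k = X.z k
      rw [hL.o, hsym]
      exact (hL.z k).symm
    · unfold Sf
      rw [← hSm, map_mul, Matrix.mul_apply, Finset.mul_sum]
      refine Finset.sum_congr rfl fun l _ => ?_
      rw [hs, hL.n_eq]
      push_cast
      ring

end Pool.Agent.Helper32.OC
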